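import Pool.Agent.N837.LP.FinG

set_option autoImplicit false

/-!
# Fixed residue, varying modulus: prescribed terms of the progressions are composite

For every `K, E ≥ 1` and `0 < η ≤ 1`, for every large `Y`, EVERY residue `b ≠ 0`, `|b| ≤ Y / 2`, and EVERY set
`T` of integers `1 ≤ k ≤ Y ^ E` with `∑ k / φ(k) ≤ K (φ(|b|) / |b|) log Y`, for a positive proportion of the
moduli `a` in `(Y, Y + Y ^ η]` prime to `b` all the numbers `k a + b`, `k ∈ T`, are composite.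
-/

namespace Pool.Agent.Results.MP_5b0a7e_nt.FixedResidueTerms

open Filter

theorem result (δ : ℝ) (hδ : 0 < δ) : ∃ C : ℝ, 0 < C ∧ ∀ K η E : ℝ, 1 ≤ K → 0 < η → η ≤ 1 → 1 ≤ E →
    ∃ Y₀ : ℝ, ∀ Y : ℝ, Y₀ ≤ Y → ∀ b : ℤ, b ≠ 0 → |(b : ℝ)| ≤ Y / 2 → ∀ T : Finset ℕ,
    (∀ k ∈ T, 1 ≤ k ∧ (k : ℝ) ≤ Y ^ E) →
    ∑ k ∈ T, (k : ℝ) / k.totient ≤ K * ((b.natAbs.totient : ℝ) / b.natAbs) * Real.log Y →
    (b.natAbs.totient : ℝ) / b.natAbs * Y ^ η * Real.exp (-Real.exp (C * K / η)) ≤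
      (({a : ℕ | Y < a ∧ (a : ℝ) ≤ Y + Y ^ η ∧ IsCoprime (a : ℤ) b ∧
        ∀ k ∈ T, ∃ q : ℕ, q.Prime ∧ (q : ℝ) ≤ Y ^ (η * δ) ∧ (q : ℤ) ∣ k * a + b ∧
          (q : ℤ) < k * a + b}).ncard : ℝ) := by
  classical
  set δ' : ℝ := min δ (1 / 2) with hδ'def
  have hδ' : 0 < δ' := lt_min hδ (by norm_num)
  have hδδ : δ' ≤ δ := min_le_left _ _
  have hδ2 : δ' ≤ 1 / 2 := min_le_right _ _
  obtain ⟨C₀, hC₀, hG⟩ := Pool.Agent.N837.LP.mainG δ' hδ'
  refine ⟨16 + C₀, by linarith, fun K η E hK hη hη1 hE => ?_⟩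
  have hKη : 1 ≤ K / η := by
    rw [le_div_iff₀ hη]
    linarith
  have hη2 : 1 ≤ E / η := by
    rw [le_div_iff₀ hη]
    linarith
  obtain ⟨X₀, hX₀⟩ := hG (K / η) (E / η) hKη hη2
  have h1 : ∀ᶠ X : ℝ in atTop, max X₀ 1 ≤ X ^ η := (tendsto_rpow_atTop hη).eventually_ge_atTop _
  have h3 : ∀ᶠ X : ℝ in atTop, (2:ℝ) < X ^ (1 / 2 : ℝ) :=
    (tendsto_rpow_atTop (by norm_num)).eventually_gt_atTop _
  obtain ⟨X₁, hX₁⟩ := Filter.eventually_atTop.1 (h1.and (h3.and (eventually_ge_atTop 16)))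
  refine ⟨X₁, fun X hX b hb hbX T hT hsum => ?_⟩
  obtain ⟨g1, g3, g4⟩ := hX₁ X hX
  have hX0 : 0 < X := by linarith
  have hXη1 : 1 ≤ X ^ η := (le_max_right _ _).trans g1
  have hlog : Real.log (X ^ η) = η * Real.log X := Real.log_rpow hX0 η
  have hy : (X ^ η) ^ δ' < X / 2 := by
    have e1 : (X ^ η) ^ δ' ≤ X ^ (1 / 2 : ℝ) := by
      rw [← Real.rpow_mul hX0.le]
      apply Real.rpow_le_rpow_of_exponent_le (by linarith)
      nlinarith
    have e2 : X ^ (1 / 2 : ℝ) * X ^ (1 / 2 : ℝ) = X := by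
      rw [← Real.rpow_add hX0]
      norm_num
    nlinarith
  have hXE : (X ^ η) ^ (E / η) = X ^ E := by
    rw [← Real.rpow_mul hX0.le, mul_div_cancel₀ _ hη.ne']
  have hXE1 : X ≤ X ^ E := by
    calc X = X ^ (1:ℝ) := (Real.rpow_one X).symm
      _ ≤ X ^ E := Real.rpow_le_rpow_of_exponent_le (by linarith) hE
  have hbabs : ((b.natAbs : ℕ) : ℝ) = |(b : ℝ)| := by
    rw [Nat.cast_natAbs, Int.cast_abs]
  have hbpos : 0 < b.natAbs := Int.natAbs_pos.2 hb
  have hmain := hX₀ (X ^ η) ((le_max_left _ _).trans g1) {k : ℕ // k ∈ T} (fun k => (k.1 : ℤ))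
    (fun _ => b) b.natAbs hbpos
    (by
      rw [hXE, hbabs]
      linarith)
    (fun k => by
      have := (hT k.1 k.2).1
      have : (0:ℤ) < k.1 := by exact_mod_cast this
      exact this.ne')
    (fun k => by
      rw [hXE, Int.cast_natCast, abs_of_nonneg (Nat.cast_nonneg _)]
      exact (hT k.1 k.2).2)
    (fun _ => by
      rw [hXE]
      linarith)
    (fun i j hij => by
      intro h
      apply hij
      apply Subtype.ext
      have h2 : ((i.1 : ℤ) - j.1) * b = 0 := by linarith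
      rcases mul_eq_zero.1 h2 with h3 | h3
      · have h4 : (i.1 : ℤ) = j.1 := by linarith
        exact_mod_cast h4
      · exact absurd h3 hb)
    (by
      rw [hlog]
      simp only [Int.natAbs_natCast]
      have e1 : ∑ i : {k : ℕ // k ∈ T}, ((i.1 : ℝ) / (i.1.totient : ℝ)) =
          ∑ k ∈ T, (k : ℝ) / k.totient :=
        Finset.sum_coe_sort T (fun k : ℕ => (k : ℝ) / k.totient)
      rw [e1]
      refine hsum.trans (le_of_eq ?_)
      field_simp)
    X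
  set R : Set ℤ := Pool.Agent.N837.LP.RG X (X ^ η) ((X ^ η) ^ δ') b.natAbs
    (fun k : {k : ℕ // k ∈ T} => (k.1 : ℤ)) (fun _ => b) with hR
  refine le_trans ?_ (hmain.trans (Nat.cast_le.2 (Set.ncard_le_ncard_of_injOn
    (fun x : ℤ => x.toNat) ?_ ?_ ?_)))
  · apply mul_le_mul_of_nonneg_left _ (by positivity)
    apply Real.exp_le_exp.2
    apply neg_le_neg
    apply Real.exp_le_exp.2
    have e1 : (16 + C₀) * K / η = 16 * (K / η) + C₀ * (K / η) := by ring
    rw [e1]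
    have : C₀ ≤ C₀ * (K / η) := le_mul_of_one_le_right hC₀ hKη
    linarith
  · intro x hx
    obtain ⟨q1, q2, q3, q4⟩ := hx
    have hx0 : 0 < x := by
      have : (0:ℝ) < x := by linarith
      exact_mod_cast this
    have hxn : ((x.toNat : ℕ) : ℤ) = x := Int.toNat_of_nonneg hx0.le
    have hxr : ((x.toNat : ℕ) : ℝ) = x := by exact_mod_cast hxn
    refine ⟨?_, ?_, ?_, ?_⟩
    · show X < ((x.toNat : ℕ) : ℝ)
      rw [hxr]
      exact q1
    · show ((x.toNat : ℕ) : ℝ) ≤ X + X ^ η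
      rw [hxr]
      exact q2
    · show IsCoprime ((x.toNat : ℕ) : ℤ) b
      rw [hxn]
      rw [Int.isCoprime_iff_gcd_eq_one] at q3 ⊢
      simpa [Int.gcd, Int.natAbs_abs] using q3
    · intro k hk
      obtain ⟨q, p1, p2, p3, p4⟩ := q4 ⟨k, hk⟩
      refine ⟨q, p1, ?_, ?_, ?_⟩
      · refine p2.trans ?_
        rw [← Real.rpow_mul hX0.le]
        apply Real.rpow_le_rpow_of_exponent_le (by linarith)
        exact mul_le_mul_of_nonneg_left hδδ hη.le
      · show (q : ℤ) ∣ k * ((x.toNat : ℕ) : ℤ) + b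
        rw [hxn]
        exact p4
      · show (q : ℤ) < k * ((x.toNat : ℕ) : ℤ) + b
        rw [hxn]
        have e1 : (1:ℝ) ≤ k := by exact_mod_cast (hT k hk).1
        have e2 := (abs_le.1 hbX).1
        have e3 : (q : ℝ) < ((k * x + b : ℤ) : ℝ) := by
          push_cast
          have e4 : (x : ℝ) ≤ k * x := by nlinarith
          linarith
        exact_mod_cast e3
  · intro x hx x' hx' hxy
    obtain ⟨w1, _⟩ := hx
    obtain ⟨w1', _⟩ := hx'
    have hx0 : 0 < x := by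
      have : (0:ℝ) < x := by linarith
      exact_mod_cast this
    have hx0' : 0 < x' := by
      have : (0:ℝ) < x' := by linarith
      exact_mod_cast this
    have : x.toNat = x'.toNat := hxy
    omega
  · apply (Set.finite_Iic ⌊X + X ^ η⌋₊).subset
    intro a ha
    obtain ⟨_, h2, _⟩ := ha
    rw [Set.mem_Iic]
    exact Nat.le_floor h2

end Pool.Agent.Results.MP_5b0a7e_nt.FixedResidueTerms
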