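import Pool.Agent.N469.TL.Least

/-!
# The least primes in almost all classes, for almost all smooth moduli

Nothing is used besides Mathlib in the statement.

The proof combines an elementary bound for the exponential sum over the integers composed of primes from a given set
(`Pool.Agent.N469.SQ.exp_alt`: it is large only near few rational numbers with small denominators) with the argument of
the starting files for the variance over random moduli (`Pool.Agent.Y958.RM.main`) and the passage from the variance to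
the least primes (`Pool.Agent.R501.LP.lpg_of_var`).
-/

set_option autoImplicit false

namespace Pool.Agent.Results.MP_5b0a7e_nt.SmoothModuli

open Finset

open Classical in
/-- The number of the `b` with `0 ≤ b < a` and `gcd(a, b) = 1` for which no prime `p ≤ x` is congruent to `b` modulo
`a`; for `a ≥ 2` this is the number of the reduced classes with `p(a, b) > x`. -/
noncomputable def late (a : ℕ) (x : ℝ) : ℕ :=
  ((range a).filter (fun b => Nat.Coprime b a ∧ ∀ p : ℕ, p.Prime → (p : ℝ) ≤ x → ¬ p % a = b)).card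

/-- `ψ(x; a, b) = ∑_{n ≤ x, n ≡ b mod a} Λ(n)` for `0 ≤ b < a` -/
noncomputable def psiAP (x : ℝ) (a b : ℕ) : ℝ :=
  ∑ n ∈ (Icc 1 ⌊x⌋₊).filter (fun n => n % a = b), ArithmeticFunction.vonMangoldt n

open Classical in
/-- The number of the `b` with `0 ≤ b < a` and `gcd(a, b) = 1` with `|ψ(x; a, b) - x / φ(a)| ≥ η x / φ(a)`. -/
noncomputable def off (a : ℕ) (x η : ℝ) : ℕ :=
  ((range a).filter (fun b => Nat.Coprime b a ∧ η * (x / (Nat.totient a : ℝ)) ≤
    |psiAP x a b - x / (Nat.totient a : ℝ)|)).card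

/-- For all real `x = lam φ(a) log a` with `a ≤ x ≤ a (log a) ^ T`: the least prime `p(a, b)` is larger than `x` for at
most `(1 + ε) φ(a) / (1 + lam)` of the reduced classes `b`, and for all `η > 0` at most `(1 + ε) φ(a) / (η² lam)` of the
reduced classes `b` have `|ψ(x; a, b) - x / φ(a)| ≥ η x / φ(a)`. -/
def Good (ε : ℝ) (T a : ℕ) : Prop :=
  ∀ x : ℝ, (a : ℝ) ≤ x → x ≤ a * Real.log a ^ T →
    (late a x : ℝ) * (1 + x / (Nat.totient a * Real.log a)) ≤ (1 + ε) * Nat.totient a ∧
    ∀ η : ℝ, 0 < η → (off a x η : ℝ) * (η ^ 2 * (x / (Nat.totient a * Real.log a))) ≤ (1 + ε) * Nat.totient a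

/-- The integers `1 ≤ v ≤ N` all of whose prime factors belong to `P`. -/
def composedOf (P : Finset ℕ) (N : ℕ) : Finset ℕ := (Icc 1 N).filter fun v => v.primeFactors ⊆ P

/-- The `y`-smooth integers `1 ≤ v ≤ N`: the integers all of whose prime factors are at most `y`. -/
def smooth (y N : ℕ) : Finset ℕ := (Icc 1 N).filter fun v => ∀ p ∈ v.primeFactors, p ≤ y

lemma good_iff (ε : ℝ) (T a : ℕ) : Good ε T a ↔ Pool.Agent.R501.LP.LpG ε T a := Iff.rfl

open Classical in
/-- Let `A`, `T`, `U`, `K`, `B`, the integer `κ ≠ 0`, `0 < ε ≤ 1` and `δ > 0` be fixed, let `N` be large,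
`1 ≤ y ≤ log ^ K N`, and let `c` be an arbitrary integer with `|c| ≤ B N`.

(1) Let `P` be an arbitrary set of primes which are at most `y`, with at least `y ^ (1 / 2 + δ) log N` elements. Then
for all the integers `v ≤ N` composed of primes from `P`, up to a proportion of at most `1 / log ^ U N` of them, ALL the
moduli `a > 0` with `|a - (c + κ v)| ≤ log ^ A N` are good: for all real `x = lam φ(a) log a` with
`a ≤ x ≤ a (log a) ^ T`, the least prime `p(a, b)` is larger than `x` for at most `(1 + ε) φ(a) / (1 + lam)` of the reduced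
classes `b` modulo `a`, and `|ψ(x; a, b) - x / φ(a)| < η x / φ(a)` for all but at most `(1 + ε) φ(a) / (η² lam)` of them, for
every `η > 0`. (There can be as few as about `N ^ (1 / 2 + δ)` such integers `v`.)

(2) In particular this holds for all the `y`-smooth integers `v ≤ N`, up to a proportion of at most `1 / log ^ U N` of them,
if `y ≥ log ^ (2 + δ) N`. (For `c = 0`, `κ = 1` the moduli are the smooth numbers themselves and all their neighbours.) -/
theorem result (A T U K B : ℕ) (κ : ℤ) (hκ : κ ≠ 0) (ε : ℝ) (hε : 0 < ε) (hε1 : ε ≤ 1) (δ : ℝ) (hδ : 0 < δ) :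
    ∃ N₀ : ℕ, ∀ N, N₀ ≤ N → ∀ y : ℕ, 1 ≤ y → (y : ℝ) ≤ Real.log N ^ K → ∀ c : ℤ, |c| ≤ B * N →
      (∀ P : Finset ℕ, (∀ p ∈ P, p.Prime ∧ p ≤ y) → (y : ℝ) ^ (1 / 2 + δ) * Real.log N ≤ P.card →
        (((composedOf P N).filter fun v : ℕ => ∃ a : ℕ, 0 < a ∧ |((a - (c + κ * v) : ℤ) : ℝ)| ≤ Real.log N ^ A ∧
          ¬ Good ε T a).card : ℝ) ≤ ((composedOf P N).card : ℝ) / Real.log N ^ U) ∧
      (Real.log N ^ (2 + δ) ≤ y →
        (((smooth y N).filter fun v : ℕ => ∃ a : ℕ, 0 < a ∧ |((a - (c + κ * v) : ℤ) : ℝ)| ≤ Real.log N ^ A ∧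
          ¬ Good ε T a).card : ℝ) ≤ ((smooth y N).card : ℝ) / Real.log N ^ U) := by
  obtain ⟨N₀, h0⟩ := Pool.Agent.N469.TL.both δ hδ K U _ (Pool.Agent.N469.TL.sm_lp κ hκ K B A T U ε hε hε1)
  refine ⟨N₀, fun N hN y hy hy' c hc => ?_⟩
  refine h0 N hN y hy hy' (fun v : ℕ => ∃ a : ℕ, 0 < a ∧ |((a - (c + κ * v) : ℤ) : ℝ)| ≤ Real.log N ^ A ∧
          ¬ Good ε T a) (fun v => inferInstance) ⟨c, hc, fun v hv => ?_⟩
  obtain ⟨a, ha0, ha, hbad⟩ := hv
  have e0 : c + κ * (v : ℤ) + ((a : ℤ) - (c + κ * v)) = a := by ring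
  refine ⟨(a : ℤ) - (c + κ * v), ha, by rw [e0]; exact_mod_cast ha0, ?_⟩
  rw [e0, Int.toNat_natCast]
  rwa [good_iff] at hbad

end Pool.Agent.Results.MP_5b0a7e_nt.SmoothModuli
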