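import Pool.Agent.N837.LP.GenS

set_option autoImplicit false

/-!
# Every modulus: any `K (φ(d) / d) log d` terms of the progressions are composite for many classes

For every `K, C ≥ 1`, every large modulus `d` and EVERY set `T` of at most `K (φ(d) / d) log d` integers
`k`, `|k| ≤ d ^ C`, at least `φ(d) exp(-exp(16 K + C₀))` of the reduced classes `a` modulo `d` are such
that `|a + k d|` is composite, with a prime factor at most `d ^ δ`, for all `k ∈ T`.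
-/

namespace Pool.Agent.Results.MP_5b0a7e_nt.SparseTerms

theorem result (δ : ℝ) (hδ : 0 < δ) : ∃ C₀ : ℝ, 0 ≤ C₀ ∧ ∀ K C : ℝ, 1 ≤ K → 1 ≤ C →
    ∃ d₀ : ℕ, ∀ d : ℕ, d₀ ≤ d → ∀ T : Finset ℤ,
    (T.card : ℝ) ≤ K * ((d.totient : ℝ) / d) * Real.log d → (∀ k ∈ T, |(k : ℝ)| ≤ (d : ℝ) ^ C) →
    (d.totient : ℝ) * Real.exp (-Real.exp (16 * K + C₀)) ≤
      (({a : ℕ | 1 ≤ a ∧ a ≤ d ∧ a.Coprime d ∧ ∀ k ∈ T, ∃ p : ℕ, p.Prime ∧
        (p : ℝ) ≤ (d : ℝ) ^ δ ∧ (p : ℤ) ∣ a + k * d ∧ (p : ℤ) < |(a : ℤ) + k * d|}).ncard : ℝ) :=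
  Pool.Agent.N837.LP.genS δ hδ

end Pool.Agent.Results.MP_5b0a7e_nt.SparseTerms
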